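import Pool.Agent.Run7.h384.HG.Alg
import Pool.Agent.H914R2.GConv3
import Pool.Agent.TH720.LB.Prod

/-!
# Lowest vectors on a product
-/

set_option autoImplicit false

open CategoryTheory AlgebraicGeometry Finset

universe u v

namespace Pool.Agent.Run7.h384.HG

open Pool.Agent.H914 VarClass Obj WeilCohomology
open Pool.Agent.TH720.LB (sumDiv isCyc_sumDiv)

variable {k : Type u} [Field k] {𝒱 : VarClass k} {ops : CycleOps 𝒱}

/-- Negligible cohomology classes. -/
structure Negl (W : WeilCohomology.{u, v} ops) where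
  N : ∀ Y : 𝒱.Obj, Submodule W.K (W.H Y)
  mul : ∀ {Y : 𝒱.Obj} {p : ℕ} {z : Y.Cycles} {a : W.H Y}, Y.IsCyc p z → a ∈ N Y →
    W.cl Y z * a ∈ N Y
  ext : ∀ {X Z : 𝒱.Obj} {p : ℕ} {z : X.Cycles} {a : W.H Z}, X.IsCyc p z → a ∈ N Z →
    W.map (fst X Z) (W.cl X z) * W.map (snd X Z) a ∈ N (X.prod Z)
  push : ∀ {X Z : 𝒱.Obj} {a : W.H (X.prod Z)}, a ∈ N (X.prod Z) → W.push (snd X Z) a ∈ N Z
  tr : ∀ {Y : 𝒱.Obj} {p : ℕ} {z : Y.Cycles} {a : W.H Y}, Y.IsCyc p z → a ∈ N Y →
    W.tr Y (W.cl Y z * a) = 0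

variable {W : WeilCohomology.{u, v} ops} {X Y Z : 𝒱.Obj}

lemma low_map {H H' : Type*} [AddCommGroup H] [AddCommGroup H'] (f : H →+ H') (B : ℕ → ℕ → H)
    (m m' c : ℕ) : f (low B m m' c) = low (fun s t => f (B s t)) m m' c := by
  simp only [low, map_sum, map_zsmul]

lemma high_map {H H' : Type*} [AddCommGroup H] [AddCommGroup H'] (f : H →+ H') (B : ℕ → ℕ → H)
    (m m' c : ℕ) : f (high B m m' c) = high (fun s t => f (B s t)) m m' c := by
  simp only [high, map_sum, map_zsmul]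

/-- The classes `ξ ^ s ⊠ η ^ t y`. -/
noncomputable def bc (W : WeilCohomology.{u, v} ops) {X Z : 𝒱.Obj} (ξ : W.H X) (η : W.H Z)
    (y : W.H Z) (s t : ℕ) : W.H (X.prod Z) :=
  W.map (fst X Z) (ξ ^ s) * W.map (snd X Z) (η ^ t * y)

lemma pow_even {a : W.H X} (ha : a ∈ W.gr X (2 * 1)) (m : ℕ) : a ^ m ∈ W.gr X (2 * m) := by
  induction m with
  | zero => simpa using W.one_mem X
  | succ m ih =>
    rw [pow_succ]
    have := W.mul_mem ih ha
    rwa [show 2 * m + 2 * 1 = 2 * (m + 1) by ring] at this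

lemma bc_mul {ξ : W.H X} (hξ : ξ ∈ W.gr X (2 * 1)) {η : W.H Z} (hη : η ∈ W.gr Z (2 * 1))
    (y : W.H Z) (s t : ℕ) :
    (W.map (fst X Z) ξ + W.map (snd X Z) η) * bc W ξ η y s t =
      bc W ξ η y (s + 1) t + bc W ξ η y s (t + 1) := by
  rw [bc, bc, bc, add_mul, ← mul_assoc, ← mul_assoc, ← map_mul, ← pow_succ',
    W.even_comm (W.map_mem _ hη), mul_assoc, ← map_mul, ← mul_assoc, ← pow_succ']

lemma tr_bc {ξ : W.H X} (hξ : ξ ∈ W.gr X (2 * 1)) {η : W.H Z} (hη : η ∈ W.gr Z (2 * 1))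
    (y y' : W.H Z) (s t s' t' : ℕ) :
    W.tr (X.prod Z) (bc W ξ η y s t * bc W ξ η y' s' t') =
      W.tr X (ξ ^ (s + s')) * W.tr Z (y * (η ^ (t + t') * y')) := by
  have h1 : bc W ξ η y s t * bc W ξ η y' s' t' =
      W.map (fst X Z) (ξ ^ (s + s')) * W.map (snd X Z) (y * (η ^ (t + t') * y')) := by
    have e1 : W.map (snd X Z) (η ^ t * y) * W.map (fst X Z) (ξ ^ s') =
        W.map (fst X Z) (ξ ^ s') * W.map (snd X Z) (η ^ t * y) :=
      (W.even_comm (W.map_mem _ (pow_even hξ s')) _).symm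
    have e2 : η ^ t * y * (η ^ t' * y') = y * (η ^ (t + t') * y') := by
      rw [W.even_comm (pow_even hη t) y, mul_assoc, pow_add, mul_assoc]
    rw [bc, bc, pow_add, map_mul (W.map (fst X Z)) (ξ ^ s), mul_assoc,
      ← mul_assoc (W.map (snd X Z) (η ^ t * y)), e1, mul_assoc (W.map (fst X Z) (ξ ^ s')),
      ← map_mul (W.map (snd X Z)), e2, ← mul_assoc]
  rw [h1, W.tr_prod]

/-- The coefficient in the comparison of the pairings. -/
def kap (n m c : ℕ) : ℕ :=
  c.factorial * (n + m - 2 * c).factorial *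
    ∑ a ∈ range (c + 1), c.choose a * ((n - a).factorial * (m - c + a).factorial)

lemma kap_pos (n m c : ℕ) : 0 < kap n m c := by
  apply Nat.mul_pos (Nat.mul_pos (Nat.factorial_pos _) (Nat.factorial_pos _))
  apply Finset.sum_pos
  · intro a ha
    rw [mem_range] at ha
    exact Nat.mul_pos (Nat.choose_pos (by omega))
      (Nat.mul_pos (Nat.factorial_pos _) (Nat.factorial_pos _))
  · exact ⟨0, by simp⟩

section

variable {ξ : W.H X} {η : W.H Z} {y y' : W.H Z} {n m c : ℕ}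

/-- The pairing of the lowest and the highest vector. -/
lemma tr_low_high (hξ : ξ ∈ W.gr X (2 * 1)) (hη : η ∈ W.gr Z (2 * 1)) (hn : n = X.dim)
    (hc : c ≤ n) (hc' : c ≤ m) :
    W.tr (X.prod Z) (low (bc W ξ η y) n m c * high (bc W ξ η y') n m c) =
      ((∑ a ∈ range (c + 1), c.choose a * ((n - a).factorial * (m - c + a).factorial) : ℕ) : W.K) *
        (W.tr X (ξ ^ n) * W.tr Z (y * (η ^ m * y'))) := by
  rw [low, high, Finset.sum_mul, map_sum, Nat.cast_sum, Finset.sum_mul]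
  apply Finset.sum_congr rfl
  intro a ha
  have ha' : a ≤ c := by rw [mem_range] at ha; omega
  rw [Finset.mul_sum, map_sum, Finset.sum_eq_single a]
  · rw [smul_mul_assoc, mul_smul_comm, map_zsmul, map_zsmul, tr_bc hξ hη,
      show a + (n - a) = n by omega, show c - a + (m - c + a) = m by omega, smul_smul, co,
      zsmul_eq_mul]
    have h2 : ((-1 : ℤ) ^ a * ((c.choose a * ((n - a).factorial * (m - c + a).factorial) : ℕ) : ℤ) *
        (-1) ^ a) = ((c.choose a * ((n - a).factorial * (m - c + a).factorial) : ℕ) : ℤ) := by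
      rw [mul_comm ((-1 : ℤ) ^ a), mul_assoc, ← pow_add, ← two_mul, pow_mul]
      norm_num
    rw [h2, Int.cast_natCast]
  · intro b hb hab
    rw [mem_range] at hb
    have h3 : W.tr X (ξ ^ (a + (n - b))) = 0 := W.tr_eq_zero (pow_even hξ _) (by omega)
    rw [smul_mul_assoc, mul_smul_comm, map_zsmul, map_zsmul, tr_bc hξ hη, h3, zero_mul, smul_zero,
      smul_zero]
  · intro h; exact absurd ha h

/-- The push-forward of the lowest vector. -/
lemma push_low (hξ : ξ ∈ W.gr X (2 * 1)) (hn : n = X.dim) (hc : c ≤ n) :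
    W.push (snd X Z) (W.map (fst X Z) (ξ ^ (n - c)) * low (bc W ξ η y) n m c) =
      ((co n (m - c) c c : ℤ) : W.K) • (W.tr X (ξ ^ n) • y) := by
  rw [low, Finset.mul_sum, map_sum, Finset.sum_eq_single c]
  · rw [mul_smul_comm, map_zsmul, bc, ← mul_assoc, ← map_mul (W.map (fst X Z)), ← pow_add,
      W.push_snd, show n - c + c = n by omega, Nat.sub_self, pow_zero, one_mul,
      Int.cast_smul_eq_zsmul]
  · intro a ha hac
    rw [mem_range] at ha
    have h3 : W.tr X (ξ ^ (n - c + a)) = 0 := W.tr_eq_zero (pow_even hξ _) (by omega)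
    rw [mul_smul_comm, map_zsmul, bc, ← mul_assoc, ← map_mul (W.map (fst X Z)), ← pow_add,
      W.push_snd, h3, zero_smul, smul_zero]
  · intro h; exact absurd (by simp) h

end

end Pool.Agent.Run7.h384.HG
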