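import Pool.Agent.Run7.h384.HG.Key

/-!
# The components of a product of two Lefschetz strings
-/

set_option autoImplicit false

open Finset

namespace Pool.Agent.Run7.h384.HG

/-- The coefficients of the lowest vector. -/
def co (m e c a : ℕ) : ℤ := (-1) ^ a * ((c.choose a * ((m - a).factorial * (e + a).factorial) : ℕ) : ℤ)

/-- The coefficient of `B (m - b) (m' - c + b)` in `L ^ M w`. -/
lemma co_sum {m m' c : ℕ} (hc : c ≤ m) (hc' : c ≤ m') {b : ℕ} (hb : b ≤ c) :
    ∑ a ∈ range (c + 1), co m (m' - c) c a *
      (if a ≤ m - b then ((m + m' - 2 * c).choose (m - b - a) : ℤ) else 0) =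
      (-1) ^ (b + c) * ((c.factorial * (m + m' - 2 * c).factorial : ℕ) : ℤ) := by
  have h := key_sum m (m' - c) b c hb hc
  have h2 : ∀ a ∈ range (c + 1), co m (m' - c) c a *
      (if a ≤ m - b then ((m + m' - 2 * c).choose (m - b - a) : ℤ) else 0) =
      ((m + m' - 2 * c).factorial : ℤ) * ((-1 : ℤ) ^ a * (c.choose a : ℤ) *
      (((m - a).descFactorial b : ℤ) * ((m' - c + a).descFactorial (c - b) : ℤ))) := by
    intro a ha
    have ha' : a ≤ c := by rw [mem_range] at ha; omega
    by_cases h1 : a ≤ m - b
    · rw [if_pos h1]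
      by_cases h3 : c - b ≤ m' - c + a
      · have e1 : (m - a).factorial = (m - b - a).factorial * (m - a).descFactorial b := by
          rw [show m - b - a = m - a - b by omega, Nat.factorial_mul_descFactorial (by omega)]
        have e2 : (m' - c + a).factorial =
            (m' - c + a - (c - b)).factorial * (m' - c + a).descFactorial (c - b) := by
          rw [Nat.factorial_mul_descFactorial h3]
        have e3 : (m + m' - 2 * c).choose (m - b - a) * (m - b - a).factorial *
            (m' - c + a - (c - b)).factorial = (m + m' - 2 * c).factorial := by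
          rw [show m' - c + a - (c - b) = m + m' - 2 * c - (m - b - a) by omega]
          exact Nat.choose_mul_factorial_mul_factorial (by omega)
        have e4 : (m - a).factorial * (m' - c + a).factorial *
            (m + m' - 2 * c).choose (m - b - a) = (m + m' - 2 * c).factorial *
            ((m - a).descFactorial b * (m' - c + a).descFactorial (c - b)) := by
          rw [e1, e2, ← e3]
          ring
        have e5 := congrArg (Nat.cast : ℕ → ℤ) e4
        push_cast at e5
        rw [co]
        push_cast
        linear_combination ((-1 : ℤ) ^ a * (c.choose a : ℤ)) * e5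
      · rw [Nat.choose_eq_zero_of_lt (by omega), Nat.descFactorial_eq_zero_iff_lt.2 (by omega :
          m' - c + a < c - b)]
        simp
    · rw [if_neg h1, Nat.descFactorial_eq_zero_iff_lt.2 (by omega : m - a < b)]
      simp
  rw [sum_congr rfl h2, ← Finset.mul_sum, h]
  push_cast
  ring

section

variable {H : Type*} [AddCommGroup H] (L : H →+ H) (B : ℕ → ℕ → H)

/-- Powers of `L`. -/
lemma L_pow (hL : ∀ s t, L (B s t) = B (s + 1) t + B s (t + 1)) (N s t : ℕ) :
    L^[N] (B s t) = ∑ i ∈ range (N + 1), N.choose i • B (s + i) (t + (N - i)) := by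
  induction N generalizing s t with
  | zero => simp
  | succ N ih =>
    rw [Function.iterate_succ_apply, hL]
    have hadd : ∀ (n : ℕ) (x y : H), L^[n] (x + y) = L^[n] x + L^[n] y := by
      intro n
      induction n with
      | zero => intro x y; rfl
      | succ n ihn => intro x y; rw [Function.iterate_succ_apply, map_add, ihn,
          Function.iterate_succ_apply, Function.iterate_succ_apply]
    rw [hadd, ih, ih, Finset.sum_range_succ' (fun i => (N + 1).choose i • B (s + i)
      (t + (N + 1 - i))), Finset.sum_range_succ (fun i => N.choose i • B (s + 1 + i)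
      (t + (N - i))), Finset.sum_range_succ' (fun i => N.choose i • B (s + i)
      (t + 1 + (N - i)))]
    have e1 : ∀ i ∈ range N, (N + 1).choose (i + 1) • B (s + (i + 1)) (t + (N + 1 - (i + 1))) =
        N.choose i • B (s + 1 + i) (t + (N - i)) +
          N.choose (i + 1) • B (s + (i + 1)) (t + 1 + (N - (i + 1))) := by
      intro i hi
      rw [mem_range] at hi
      rw [Nat.choose_succ_succ, add_smul, show s + (i + 1) = s + 1 + i by ring,
        show t + (N + 1 - (i + 1)) = t + (N - i) by omega,
        show t + 1 + (N - (i + 1)) = t + (N - i) by omega]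
    rw [Finset.sum_range_succ (fun i => (N + 1).choose (i + 1) • B (s + (i + 1))
      (t + (N + 1 - (i + 1)))), sum_congr rfl e1, sum_add_distrib]
    have e2 : (N + 1).choose (N + 1) • B (s + (N + 1)) (t + (N + 1 - (N + 1))) =
        N.choose N • B (s + 1 + N) (t + (N - N)) := by
      rw [Nat.choose_self, Nat.choose_self, show s + (N + 1) = s + 1 + N by ring]
      simp
    rw [e2]
    simp only [Nat.choose_zero_right, one_smul, Nat.sub_zero, add_zero]
    rw [show t + 1 + N = t + (N + 1) by ring]
    abel

/-- The string of length `m + m' - 2 c`. -/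
def low (m m' c : ℕ) : H := ∑ a ∈ range (c + 1), co m (m' - c) c a • B a (c - a)

/-- Its highest vector. -/
def high (m m' c : ℕ) : H := ∑ b ∈ range (c + 1), (-1 : ℤ) ^ b • B (m - b) (m' - c + b)

variable {m m' c : ℕ}

lemma L_low (hL : ∀ s t, L (B s t) = B (s + 1) t + B s (t + 1))
    (h1 : ∀ s t, m < s → B s t = 0) (h2 : ∀ s t, m' < t → B s t = 0) (hc : c ≤ m)
    (hc' : c ≤ m') :
    L^[m + m' - 2 * c] (low B m m' c) =
      ((-1 : ℤ) ^ c * ((c.factorial * (m + m' - 2 * c).factorial : ℕ) : ℤ)) • high B m m' c := by
  set M := m + m' - 2 * c with hM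
  have hLM : ∀ x : H, L^[M] x = (L^[M]) x := fun _ => rfl
  have hz : ∀ (n : ℕ) (z : ℤ) (x : H), L^[n] (z • x) = z • L^[n] x := by
    intro n
    induction n with
    | zero => intro z x; rfl
    | succ n ihn => intro z x; rw [Function.iterate_succ_apply, map_zsmul, ihn,
        Function.iterate_succ_apply]
  have hs : ∀ (n : ℕ) (s : Finset ℕ) (f : ℕ → H), L^[n] (∑ a ∈ s, f a) = ∑ a ∈ s, L^[n] (f a) := by
    intro n
    induction n with
    | zero => intro s f; rfl
    | succ n ihn => intro s f; rw [Function.iterate_succ_apply, map_sum, ihn]; rfl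
  rw [low, hs]
  -- the expansion of the terms
  have e1 : ∀ a ∈ range (c + 1), L^[M] (co m (m' - c) c a • B a (c - a)) =
      ∑ s ∈ range (c + M + 1), (co m (m' - c) c a * (if a ≤ s then (M.choose (s - a) : ℤ) else 0)) •
        B s (c + M - s) := by
    intro a ha
    have ha' : a ≤ c := by rw [mem_range] at ha; omega
    rw [hz, L_pow L B hL, Finset.smul_sum]
    have e2 : range (c + M + 1) = range a ∪ (Ico a (a + (M + 1)) ∪ Ico (a + (M + 1)) (c + M + 1)) := by
      ext s
      simp only [mem_range, mem_union, mem_Ico]
      omega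
    rw [e2, sum_union, sum_union]
    · have z1 : ∑ s ∈ range a, (co m (m' - c) c a *
          (if a ≤ s then (M.choose (s - a) : ℤ) else 0)) • B s (c + M - s) = 0 := by
        apply sum_eq_zero
        intro s hs'
        rw [mem_range] at hs'
        rw [if_neg (by omega), mul_zero, zero_smul]
      have z2 : ∑ s ∈ Ico (a + (M + 1)) (c + M + 1), (co m (m' - c) c a *
          (if a ≤ s then (M.choose (s - a) : ℤ) else 0)) • B s (c + M - s) = 0 := by
        apply sum_eq_zero
        intro s hs'
        rw [mem_Ico] at hs'
        rw [if_pos (by omega), Nat.choose_eq_zero_of_lt (by omega), Nat.cast_zero, mul_zero,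
          zero_smul]
      rw [z1, z2, zero_add, add_zero, Finset.sum_Ico_eq_sum_range, show a + (M + 1) - a = M + 1 by
        omega]
      apply sum_congr rfl
      intro i hi
      rw [mem_range] at hi
      rw [if_pos (by omega), show a + i - a = i by omega,
        show c + M - (a + i) = c - a + (M - i) by omega, mul_smul, Nat.cast_smul_eq_nsmul]
    · rw [Finset.disjoint_left]
      intro s hs1 hs2
      rw [mem_Ico] at hs1 hs2
      omega
    · rw [Finset.disjoint_left]
      intro s hs1 hs2
      simp only [mem_range, mem_union, mem_Ico] at hs1 hs2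
      omega
  rw [sum_congr rfl e1, sum_comm]
  simp only [← Finset.sum_smul]
  -- only the terms `s = m - b` remain
  have e3 : ∑ s ∈ range (c + M + 1), (∑ a ∈ range (c + 1), co m (m' - c) c a *
      (if a ≤ s then (M.choose (s - a) : ℤ) else 0)) • B s (c + M - s) =
      ∑ s ∈ Ico (m - c) (m + 1), (∑ a ∈ range (c + 1), co m (m' - c) c a *
      (if a ≤ s then (M.choose (s - a) : ℤ) else 0)) • B s (c + M - s) := by
    symm
    apply sum_subset
    · intro s hs'
      rw [mem_Ico] at hs'
      rw [mem_range]
      omega
    · intro s hs1 hs2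
      rw [mem_range] at hs1
      rw [mem_Ico] at hs2
      rcases Nat.lt_or_ge m s with h | h
      · rw [h1 s _ h, smul_zero]
      · rw [h2 s (c + M - s) (by omega), smul_zero]
  rw [e3, high, Finset.smul_sum]
  have e4 : Ico (m - c) (m + 1) = (range (c + 1)).image (fun b => m - b) := by
    ext s
    simp only [mem_Ico, mem_image, mem_range]
    constructor
    · intro h
      exact ⟨m - s, by omega, by omega⟩
    · rintro ⟨b, hb, rfl⟩
      omega
  rw [e4, sum_image]
  · apply sum_congr rfl
    intro b hb
    have hb' : b ≤ c := by rw [mem_range] at hb; omega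
    rw [co_sum hc hc' hb', show c + M - (m - b) = m' - c + b by omega, ← hM, smul_smul]
    congr 1
    rw [pow_add]
    ring
  · intro b hb b' hb' h
    simp only [Finset.coe_range, Set.mem_Iio] at hb hb'
    simp only at h
    omega

/-- The highest vector is annihilated by `L`. -/
lemma L_high (hL : ∀ s t, L (B s t) = B (s + 1) t + B s (t + 1))
    (h1 : ∀ s t, m < s → B s t = 0) (h2 : ∀ s t, m' < t → B s t = 0) (hc : c ≤ m)
    (hc' : c ≤ m') : L (high B m m' c) = 0 := by
  rw [high, map_sum]
  have e1 : ∀ b ∈ range (c + 1), L ((-1 : ℤ) ^ b • B (m - b) (m' - c + b)) =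
      (-1 : ℤ) ^ b • B (m + 1 - b) (m' - c + b) -
        (-1 : ℤ) ^ (b + 1) • B (m + 1 - (b + 1)) (m' - c + (b + 1)) := by
    intro b hb
    have hb' : b ≤ c := by rw [mem_range] at hb; omega
    rw [map_zsmul, hL, show m - b + 1 = m + 1 - b by omega, show m + 1 - (b + 1) = m - b by omega,
      show m' - c + (b + 1) = m' - c + b + 1 by ring, pow_succ, smul_add]
    simp
  rw [sum_congr rfl e1, Finset.sum_range_sub', h1 _ _ (by omega), h2 _ _ (by omega)]
  simp

end

end Pool.Agent.Run7.h384.HG
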