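import Pool.Agent.Run7.h174.PiDefs
import Pool.Agent.H914R2.HodgeDefs
import Pool.Agent.H281R3.HT.Defs

/-!
# The conjecture of Hodge type in one codimension of a product: definitions
-/

set_option autoImplicit false

open CategoryTheory AlgebraicGeometry Finset

universe u v

namespace Pool.Agent.Run7.h384.HG

open Pool.Agent.H914 VarClass Obj WeilCohomology
open Pool.Agent.H281R3.HT (Polarized)
open Pool.Agent.W539.Ker (HasFamily)
open Pool.Agent.Run7.h174.PI (HasSquares HodgeTypeNum)

variable {k : Type u} [Field k] {𝒱 : VarClass k} {ops : CycleOps 𝒱}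

/-- The standard conjecture of Hodge type for `X` and the divisor `D` in the codimension `j`: for
every cycle `z` of codimension `j` whose class is primitive and not zero, the sign of the
intersection number `z · z · D ^ (n - 2 j)`, `n = dim X`, is `(-1) ^ j`. -/
def HodgeTypeIn (W : WeilCohomology.{u, v} ops) (X : 𝒱.Obj) (D : X.Cycles) (j : ℕ) : Prop :=
  ∀ z, X.IsCyc j z → W.cl X (divPow ops D (X.dim - 2 * j + 1) z) = 0 → W.cl X z ≠ 0 →
    0 < (-1 : ℚ) ^ j * X.V.degCycle (ops.mul z (divPow ops D (X.dim - 2 * j) z))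

/-- The cycle `D` is a divisor, and the intersection number `D ^ n`, `n = dim X`, is positive (for
example `D` is ample). -/
def Positive (ops : CycleOps 𝒱) (P : Polarized 𝒱) : Prop :=
  P.X.IsCyc 1 P.D ∧ 0 < P.X.V.degCycle (divPow ops P.D P.X.dim P.X.V.fundCycle)

/-- The product `X₁ × (X₂ × ⋯ × (X_t × Z))` for the list `X₁, …, X_t`, with the sum of the
divisors. -/
noncomputable def prodL (ops : CycleOps 𝒱) (l : List (Polarized 𝒱)) (Q : Polarized 𝒱) :
    Polarized 𝒱 :=
  l.foldr (Polarized.prod ops) Q

/-- The sum of the dimensions. -/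
def dims (l : List (Polarized 𝒱)) : ℕ := (l.map fun P => P.X.dim).sum

/-- The power `X × (X × ⋯ × X)` with `r + 1` factors, with the sum of the divisors. -/
noncomputable def power (ops : CycleOps 𝒱) (P : Polarized 𝒱) (r : ℕ) : Polarized 𝒱 :=
  prodL ops (List.replicate r P) P

/-- What holds in the codimension `j` for `Q` if it holds in the codimension `q` for `R`: the
conjecture of Hodge type modulo homological equivalence and modulo numerical equivalence; and
`Q` has in the codimension `j` at most as many squares of each sign as `R` in the codimension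
`q`. -/
def Descends (W : WeilCohomology.{u, v} ops) (R : Polarized 𝒱) (q : ℕ) (Q : Polarized 𝒱)
    (j : ℕ) : Prop :=
  (HodgeTypeIn W R.X R.D q → HodgeTypeIn W Q.X Q.D j) ∧
  (HodgeTypeNum ops R.X R.D q → HodgeTypeNum ops Q.X Q.D j) ∧
  ∀ (s : ℚ) (r : ℕ), (HasFamily W Q.X Q.D j s r → HasFamily W R.X R.D q s r) ∧
    (HasSquares ops Q.X Q.D j s r → HasSquares ops R.X R.D q s r)

/-- The number of the sequences `c₁, …, c_t` of integers `0 ≤ c_i ≤ n` with sum `q - j` and
`c_i + 2 (j + c₁ + ⋯ + c_(i - 1)) ≤ d + (i - 1) n`. This is the multiplicity of the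
irreducible representation of `sl₂` of highest weight `d + n t - 2 q` in
`V_(d - 2 j) ⊗ V_n ⊗ ⋯ ⊗ V_n`. -/
def ways (n d j : ℕ) : ℕ → ℕ → ℕ
  | 0, q => if q = j then 1 else 0
  | t + 1, q => ∑ c ∈ (range (min n q + 1)).filter (fun c => c + 2 * (q - c) ≤ d + n * t),
      ways n d j t (q - c)

end Pool.Agent.Run7.h384.HG
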