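import Pool.Agent.Run7.h384.HG.Rel

/-!
# Powers
-/

set_option autoImplicit false

open CategoryTheory AlgebraicGeometry Finset

universe u v

namespace Pool.Agent.Run7.h384.HG

open Pool.Agent.H914 VarClass Obj WeilCohomology
open Pool.Agent.TH720.LB (sumDiv isCyc_sumDiv)
open Pool.Agent.W539.Ker (pairing HasFamily Primitive)
open Pool.Agent.H281R3.HT (Polarized)
open Pool.Agent.Run7.h174.PI (HasSquares HodgeTypeNum NumPrimitive)

variable {k : Type u} [Field k] {𝒱 : VarClass k} {ops : CycleOps 𝒱}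
  {W : WeilCohomology.{u, v} ops}

theorem descends_list {l : List (Polarized 𝒱)} {Q : Polarized 𝒱} (hl : ∀ P ∈ l, Positive ops P)
    (hQ : Q.X.IsCyc 1 Q.D) {j q : ℕ} (hj : 2 * j ≤ Q.X.dim) (h1 : j ≤ q)
    (h2 : 2 * q ≤ Q.X.dim + dims l) (h3 : q ≤ j + dims l)
    (h4 : ∀ P ∈ l, q + j + P.X.dim ≤ Q.X.dim + dims l) :
    Descends W (prodL ops l Q) q Q j :=
  descends_of (prodL_cyc l (fun P hP => (hl P hP).1) Q hQ) hQ (by rwa [prodL_dim]) hj
    fun E => transfers_list E Q hQ l hl hj h1 h2 h3 h4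

lemma dims_replicate (P : Polarized 𝒱) (t : ℕ) : dims (List.replicate t P) = t * P.X.dim := by
  simp [dims]

lemma power_dim (P : Polarized 𝒱) (r : ℕ) : (power ops P r).X.dim = (r + 1) * P.X.dim := by
  rw [power, prodL_dim, dims_replicate]; ring

lemma power_cyc {P : Polarized 𝒱} (hP : P.X.IsCyc 1 P.D) (r : ℕ) :
    (power ops P r).X.IsCyc 1 (power ops P r).D :=
  prodL_cyc _ (fun P' hP' => by rw [List.eq_of_mem_replicate hP']; exact hP) _ hP

lemma power_add (P : Polarized 𝒱) (s t : ℕ) :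
    power ops P (s + t) = prodL ops (List.replicate t P) (power ops P s) := by
  rw [power, power, prodL, prodL, prodL, ← List.foldr_append, List.replicate_append_replicate,
    add_comm s t]

theorem descends_power {P : Polarized 𝒱} (hP : Positive ops P) {s t j q : ℕ} (ht : 2 ≤ t)
    (hj : 2 * j ≤ (s + 1) * P.X.dim) (h1 : j ≤ q) (h2 : 2 * q ≤ (s + t + 1) * P.X.dim)
    (h3 : q ≤ j + t * P.X.dim) : Descends W (power ops P (s + t)) q (power ops P s) j := by
  rw [power_add]
  have e1 : (s + t + 1) * P.X.dim = (s + 1) * P.X.dim + t * P.X.dim := by ring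
  rw [e1] at h2
  have e2 : 2 * P.X.dim ≤ t * P.X.dim := Nat.mul_le_mul_right _ ht
  apply descends_list (fun P' hP' => by rwa [List.eq_of_mem_replicate hP']) (power_cyc hP.1 s)
  · rwa [power_dim]
  · exact h1
  · rwa [power_dim, dims_replicate]
  · rwa [dims_replicate]
  · intro P' hP'
    rw [List.eq_of_mem_replicate hP', power_dim, dims_replicate]
    omega

theorem hodge_iff {P : Polarized 𝒱} (hP : Positive ops P) {S : Set (ℕ × ℕ)}
    (hS : ∀ x ∈ S, 2 * x.2 ≤ (x.1 + 1) * P.X.dim) (hS' : ∀ N, ∃ x ∈ S, N ≤ x.1 ∧ N ≤ x.2) :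
    ((∀ x ∈ S, HodgeTypeIn W (power ops P x.1).X (power ops P x.1).D x.2) ↔
      ∀ r, HodgeType W (power ops P r).X (power ops P r).D) ∧
    ((∀ x ∈ S, HodgeTypeNum ops (power ops P x.1).X (power ops P x.1).D x.2) ↔
      ∀ r j, 2 * j ≤ (power ops P r).X.dim →
        HodgeTypeNum ops (power ops P r).X (power ops P r).D j) := by
  have key : ∀ r j, 2 * j ≤ (power ops P r).X.dim → ∃ x ∈ S,
      Descends W (power ops P x.1) x.2 (power ops P r) j := by
    intro r j hj
    rw [power_dim] at hj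
    obtain ⟨x, hx, h1, h2⟩ := hS' (2 * r + 2 + j)
    refine ⟨x, hx, ?_⟩
    have h3 := hS x hx
    obtain ⟨t, ht⟩ : ∃ t, x.1 = r + t := ⟨x.1 - r, by omega⟩
    rw [ht] at h1 h3 ⊢
    apply descends_power hP (by omega) hj (by omega) h3
    have h4 : (r + t + 1) * P.X.dim ≤ (2 * t) * P.X.dim := Nat.mul_le_mul_right _ (by omega)
    have h5 : 2 * t * P.X.dim = 2 * (t * P.X.dim) := by ring
    omega
  refine ⟨⟨fun h r j hj => ?_, fun h x hx => ?_⟩, ⟨fun h r j hj => ?_, fun h x hx => ?_⟩⟩
  · obtain ⟨x, hx, hd⟩ := key r j hj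
    exact hd.1 (h x hx)
  · exact h x.1 x.2 (by rw [power_dim]; exact hS x hx)
  · obtain ⟨x, hx, hd⟩ := key r j hj
    exact hd.2.1 (h x hx)
  · exact h x.1 x.2 (by rw [power_dim]; exact hS x hx)

lemma prodL_cons (P Q : Polarized 𝒱) (l : List (Polarized 𝒱)) :
    prodL ops (P :: l) Q = P.prod ops (prodL ops l Q) := rfl

theorem squares_ways (E : Negl W) {P Q : Polarized 𝒱} (hP : Positive ops P)
    (hQ : Q.X.IsCyc 1 Q.D) {j : ℕ} {s : ℚ} {r : ℕ}
    (h : Squares E Q.X Q.D j s r) (t q : ℕ) :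
    Squares E (prodL ops (List.replicate t P) Q).X (prodL ops (List.replicate t P) Q).D q s
      (ways P.X.dim Q.X.dim j t q * r) := by
  induction t generalizing q with
  | zero =>
    rw [ways]
    by_cases hq : q = j
    · rw [if_pos hq, one_mul, hq]; exact h
    · rw [if_neg hq, zero_mul]
      exact ⟨fun i => i.elim0, fun i => i.elim0, fun i => i.elim0, fun i => i.elim0⟩
  | succ t ih =>
    rw [ways, Finset.sum_mul, List.replicate_succ, prodL_cons]
    have hd : (prodL ops (List.replicate t P) Q).X.dim = Q.X.dim + P.X.dim * t := by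
      rw [prodL_dim, dims_replicate, mul_comm]
    refine squares_step E hP.1 hP.2 (prodL_cyc _ (fun P' hP' => by
      rw [List.eq_of_mem_replicate hP']; exact hP.1) _ hQ) s _ (fun c hc => ?_)
      (fun c => ways P.X.dim Q.X.dim j t (q - c) * r) (fun c _ => ih (q - c))
    rw [mem_filter, mem_range] at hc
    rw [hd]
    omega

/-- Superadditivity of the numbers of squares. -/
theorem family_prod {P Q : Polarized 𝒱} (hP : Positive ops P) (hQ : Q.X.IsCyc 1 Q.D) {q : ℕ}
    (hq : 2 * q ≤ P.X.dim + Q.X.dim) (s : ℚ) (r : ℕ → ℕ) :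
    ((∀ c ≤ min P.X.dim q, c + 2 * (q - c) ≤ Q.X.dim → HasFamily W Q.X Q.D (q - c) s (r c)) →
      HasFamily W (P.prod ops Q).X (P.prod ops Q).D q s
        (∑ c ∈ (range (min P.X.dim q + 1)).filter (fun c => c + 2 * (q - c) ≤ Q.X.dim), r c)) ∧
    ((∀ c ≤ min P.X.dim q, c + 2 * (q - c) ≤ Q.X.dim → HasSquares ops Q.X Q.D (q - c) s (r c)) →
      HasSquares ops (P.prod ops Q).X (P.prod ops Q).D q s
        (∑ c ∈ (range (min P.X.dim q + 1)).filter (fun c => c + 2 * (q - c) ≤ Q.X.dim), r c)) := by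
  have hdim : (P.prod ops Q).X.dim = P.X.dim + Q.X.dim := rfl
  have hcyc : (P.prod ops Q).X.IsCyc 1 (P.prod ops Q).D := isCyc_sumDiv hP.1 hQ
  constructor
  · intro h
    rw [← squares_hom_iff]
    apply squares_step (homNegl W) hP.1 hP.2 hQ s
    · intro c hc
      rw [mem_filter, mem_range] at hc
      omega
    · intro c hc
      rw [mem_filter, mem_range] at hc
      rw [squares_hom_iff]
      exact h c (by omega) hc.2
  · intro h
    rw [← squares_num_iff W hcyc (by rw [hdim]; exact hq)]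
    apply squares_step (numNegl W) hP.1 hP.2 hQ s
    · intro c hc
      rw [mem_filter, mem_range] at hc
      omega
    · intro c hc
      rw [mem_filter, mem_range] at hc
      rw [squares_num_iff W hQ (by omega)]
      exact h c (by omega) hc.2

/-- The squares on the products with powers. -/
theorem family_ways {P Q : Polarized 𝒱} (hP : Positive ops P) (hQ : Q.X.IsCyc 1 Q.D) {j : ℕ}
    (hj : 2 * j ≤ Q.X.dim) {s : ℚ} {r : ℕ} {t q : ℕ} (hq : 2 * q ≤ Q.X.dim + t * P.X.dim) :
    (HasFamily W Q.X Q.D j s r →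
      HasFamily W (prodL ops (List.replicate t P) Q).X (prodL ops (List.replicate t P) Q).D q s
        (ways P.X.dim Q.X.dim j t q * r)) ∧
    (HasSquares ops Q.X Q.D j s r →
      HasSquares ops (prodL ops (List.replicate t P) Q).X (prodL ops (List.replicate t P) Q).D
        q s (ways P.X.dim Q.X.dim j t q * r)) := by
  have hcyc : (prodL ops (List.replicate t P) Q).X.IsCyc 1
      (prodL ops (List.replicate t P) Q).D := prodL_cyc _ (fun P' hP' => by
      rw [List.eq_of_mem_replicate hP']; exact hP.1) _ hQ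
  constructor
  · intro h
    rw [← squares_hom_iff] at h ⊢
    exact squares_ways _ hP hQ h t q
  · intro h
    rw [← squares_num_iff W hQ hj] at h
    rw [← squares_num_iff W hcyc (by rwa [prodL_dim, dims_replicate])]
    exact squares_ways _ hP hQ h t q

end Pool.Agent.Run7.h384.HG
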