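import Mathlib

/-!
# Clebsch-Gordan coefficients
-/

set_option autoImplicit false

open Finset Polynomial

namespace Pool.Agent.Run7.h384.HG

/-- The polynomial `(m - X)(m - X - 1) ⋯ · (e + X)(e + X - 1) ⋯` with `b` and `d` factors. -/
noncomputable def keyPoly (m e b d : ℕ) : ℤ[X] :=
  (descPochhammer ℤ b).comp (C (m : ℤ) - X) * (descPochhammer ℤ d).comp (X + C (e : ℤ))

lemma keyPoly_natDegree (m e b d : ℕ) : (keyPoly m e b d).natDegree = b + d := by
  have h1 : (C (m : ℤ) - X : ℤ[X]).natDegree = 1 := by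
    rw [← neg_sub, natDegree_neg, natDegree_X_sub_C]
  have h2 : (X + C (e : ℤ) : ℤ[X]).natDegree = 1 := natDegree_X_add_C _
  have n1 : ((descPochhammer ℤ b).comp (C (m : ℤ) - X)).natDegree = b := by
    rw [natDegree_comp, h1, descPochhammer_natDegree, mul_one]
  have n2 : ((descPochhammer ℤ d).comp (X + C (e : ℤ))).natDegree = d := by
    rw [natDegree_comp, h2, descPochhammer_natDegree, mul_one]
  have z1 : (descPochhammer ℤ b).comp (C (m : ℤ) - X) ≠ 0 := by
    rw [Ne, ← leadingCoeff_eq_zero, leadingCoeff_comp (by rw [h1]; exact one_ne_zero),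
      (monic_descPochhammer ℤ b).leadingCoeff, ← neg_sub, leadingCoeff_neg, leadingCoeff_X_sub_C]
    exact mul_ne_zero one_ne_zero (pow_ne_zero _ (by norm_num))
  have z2 : (descPochhammer ℤ d).comp (X + C (e : ℤ)) ≠ 0 := by
    rw [Ne, ← leadingCoeff_eq_zero, leadingCoeff_comp (by rw [h2]; exact one_ne_zero),
      (monic_descPochhammer ℤ d).leadingCoeff, leadingCoeff_X_add_C]
    exact mul_ne_zero one_ne_zero (pow_ne_zero _ (by norm_num))
  rw [keyPoly, natDegree_mul z1 z2, n1, n2]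

lemma keyPoly_leadingCoeff (m e b d : ℕ) : (keyPoly m e b d).leadingCoeff = (-1) ^ b := by
  have h1 : (C (m : ℤ) - X : ℤ[X]).natDegree = 1 := by
    rw [← neg_sub, natDegree_neg, natDegree_X_sub_C]
  have h2 : (X + C (e : ℤ) : ℤ[X]).natDegree = 1 := natDegree_X_add_C _
  rw [keyPoly, leadingCoeff_mul, leadingCoeff_comp (by rw [h1]; exact one_ne_zero),
    leadingCoeff_comp (by rw [h2]; exact one_ne_zero), (monic_descPochhammer ℤ b).leadingCoeff,
    (monic_descPochhammer ℤ d).leadingCoeff, ← neg_sub, leadingCoeff_neg, leadingCoeff_X_sub_C,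
    leadingCoeff_X_add_C, descPochhammer_natDegree, one_pow, one_mul, one_mul, mul_one]

lemma keyPoly_eval (m e b d a : ℕ) (ha : a ≤ m) :
    (keyPoly m e b d).eval (a : ℤ) =
      ((m - a).descFactorial b : ℤ) * ((e + a).descFactorial d : ℤ) := by
  rw [keyPoly, eval_mul, eval_comp, eval_comp, eval_sub, eval_add, eval_C, eval_X, eval_C,
    show ((m : ℤ) - a) = ((m - a : ℕ) : ℤ) by push_cast [ha]; ring,
    show ((a : ℤ) + e) = ((e + a : ℕ) : ℤ) by push_cast; ring,
    descPochhammer_eval_eq_descFactorial, descPochhammer_eval_eq_descFactorial]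

/-- The alternating sum. -/
lemma key_sum (m e b c : ℕ) (hb : b ≤ c) (hc : c ≤ m) :
    ∑ a ∈ range (c + 1), (-1 : ℤ) ^ a * (c.choose a : ℤ) *
      (((m - a).descFactorial b : ℤ) * ((e + a).descFactorial (c - b) : ℤ)) =
      (-1) ^ (b + c) * (c.factorial : ℤ) := by
  have h1 := Polynomial.fwdDiff_iter_degree_eq_factorial (keyPoly m e b (c - b))
  rw [keyPoly_natDegree, keyPoly_leadingCoeff, show b + (c - b) = c by omega] at h1
  have h2 := fwdDiff_iter_eq_sum_shift (1 : ℤ) (fun x => (keyPoly m e b (c - b)).eval x) c 0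
  have h3 : ((fwdDiff (1 : ℤ))^[c] (fun x => (keyPoly m e b (c - b)).eval x)) 0 =
      (-1) ^ b * (c.factorial : ℤ) := by
    have := congrFun h1 0
    simpa [mul_comm] using this
  rw [h3] at h2
  have h4 : ∑ a ∈ range (c + 1), (-1 : ℤ) ^ a * (c.choose a : ℤ) *
      (((m - a).descFactorial b : ℤ) * ((e + a).descFactorial (c - b) : ℤ)) =
      (-1) ^ c * ∑ k ∈ range (c + 1), ((-1 : ℤ) ^ (c - k) * (c.choose k : ℤ)) •
        (keyPoly m e b (c - b)).eval (0 + k • 1) := by
    rw [Finset.mul_sum]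
    apply Finset.sum_congr rfl
    intro a ha
    have ha' : a ≤ c := by rw [mem_range] at ha; omega
    rw [zero_add, nsmul_eq_mul, mul_one, keyPoly_eval m e b (c - b) a (by omega), smul_eq_mul]
    have h5 : (-1 : ℤ) ^ c * (-1) ^ (c - a) = (-1) ^ a := by
      rw [← pow_add, show c + (c - a) = 2 * (c - a) + a by omega, pow_add, pow_mul]
      norm_num
    rw [← h5]
    ring
  rw [h4, ← h2, ← mul_assoc, ← pow_add, add_comm c b]

end Pool.Agent.Run7.h384.HG
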