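import Pool.Agent.Run7.h384.HG.Reach

/-!
# The transfers for different `c` are orthogonal
-/

set_option autoImplicit false

open CategoryTheory AlgebraicGeometry Finset

universe u v

namespace Pool.Agent.Run7.h384.HG

open Pool.Agent.H914 VarClass Obj WeilCohomology
open Pool.Agent.TH720.LB (sumDiv isCyc_sumDiv)
open Pool.Agent.W539.Ker (pairing)
open Pool.Agent.H281R3.HT (Polarized)

variable {k : Type u} [Field k] {𝒱 : VarClass k} {ops : CycleOps 𝒱}
  {W : WeilCohomology.{u, v} ops} {X Y Z : 𝒱.Obj}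

lemma tr_low_high_zero {ξ : W.H X} {η : W.H Z} {y y' : W.H Z} {n m m' c c' : ℕ}
    (hξ : ξ ∈ W.gr X (2 * 1)) (hη : η ∈ W.gr Z (2 * 1)) (hn : n = X.dim) (hc2 : c' ≤ n) (hc' : c' ≤ m')
    (h0 : W.tr Z (y * (η ^ (c + m' - c') * y')) = 0) :
    W.tr (X.prod Z) (low (bc W ξ η y) n m c * high (bc W ξ η y') n m' c') = 0 := by
  rw [low, high, Finset.sum_mul, map_sum]
  apply Finset.sum_eq_zero
  intro a ha
  rw [mem_range] at ha
  rw [Finset.mul_sum, map_sum]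
  apply Finset.sum_eq_zero
  intro b hb
  rw [mem_range] at hb
  rw [smul_mul_assoc, mul_smul_comm, map_zsmul, map_zsmul, tr_bc hξ hη]
  by_cases hab : a = b
  · subst hab
    rw [show c - a + (m' - c' + a) = c + m' - c' by omega, h0, mul_zero, smul_zero, smul_zero]
  · have h3 : W.tr X (ξ ^ (a + (n - b))) = 0 := W.tr_eq_zero (pow_even hξ _) (by omega)
    rw [h3, zero_mul, smul_zero, smul_zero]

/-- The pairing of primitive cycles of different codimensions. -/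
lemma tr_prim_zero (E : Negl W) {D : Z.Cycles} (hD : Z.IsCyc 1 D) {j j' : ℕ} {z z' : Z.Cycles}
    (hj : 2 * j ≤ Z.dim) (hj' : 2 * j' ≤ Z.dim) (hz : Prim E Z D j z) (hz' : Prim E Z D j' z')
    (hne : j ≠ j') : W.tr Z (W.cl Z z * (W.cl Z D ^ (Z.dim - j - j') * W.cl Z z')) = 0 := by
  have h1 : W.cl Z D ^ (Z.dim - 2 * j + 1) * W.cl Z z ∈ E.N Z := by
    have := hz.2; rwa [cl_divPow, mulLeft_pow_apply] at this
  have h2 : W.cl Z D ^ (Z.dim - 2 * j' + 1) * W.cl Z z' ∈ E.N Z := by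
    have := hz'.2; rwa [cl_divPow, mulLeft_pow_apply] at this
  rcases Nat.lt_or_gt_of_ne hne with h | h
  · apply E.tr hz.1
    have := E.pow_mem hD h2 (j' - j - 1)
    rwa [← mul_assoc, ← pow_add, show j' - j - 1 + (Z.dim - 2 * j' + 1) = Z.dim - j - j' by
      omega] at this
  · have hη : W.cl Z D ∈ W.gr Z (2 * 1) := W.cl_mem hD
    rw [W.even_comm (W.cl_mem hz.1) (W.cl Z D ^ (Z.dim - j - j') * W.cl Z z'), mul_assoc,
      W.even_comm (pow_even hη _) (W.cl Z z' * W.cl Z z), mul_assoc,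
      ← W.even_comm (pow_even hη _) (W.cl Z z)]
    apply E.tr hz'.1
    have := E.pow_mem hD h1 (j - j' - 1)
    rwa [← mul_assoc, ← pow_add, show j - j' - 1 + (Z.dim - 2 * j + 1) = Z.dim - j - j' by
      omega] at this

/-- The transfers for different `c` are orthogonal. -/
lemma lowCyc_orth (E : Negl W) {D : X.Cycles} (hD : X.IsCyc 1 D) {D' : Z.Cycles}
    (hD' : Z.IsCyc 1 D') {j j' c c' q : ℕ} (hj : 2 * j ≤ Z.dim) (hj' : 2 * j' ≤ Z.dim)
    (hq : j + c = q) (hq' : j' + c' = q) (hc : c ≤ X.dim) (hc' : c' ≤ X.dim)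
    (hd : c + 2 * j ≤ Z.dim) (hd' : c' + 2 * j' ≤ Z.dim) (hne : j ≠ j') {z z' : Z.Cycles}
    (hz : Prim E Z D' j z) (hz' : Prim E Z D' j' z') :
    pairing ops (X.prod Z) (sumDiv ops D D') q (lowCyc ops D D' X.dim (Z.dim - 2 * j) c z)
      (lowCyc ops D D' X.dim (Z.dim - 2 * j') c' z') = 0 := by
  set n := X.dim with hn
  have hξm : W.cl X D ∈ W.gr X (2 * 1) := W.cl_mem hD
  have hηm : W.cl Z D' ∈ W.gr Z (2 * 1) := W.cl_mem hD'
  have hM : (X.prod Z).dim - 2 * q = n + (Z.dim - 2 * j') - 2 * c' := by rw [dim_prod]; omega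
  have hy' : W.cl Z D' ^ (Z.dim - 2 * j' + 1) * W.cl Z z' ∈ E.N Z := by
    have := hz'.2; rwa [cl_divPow, mulLeft_pow_apply] at this
  have hmem1 : (X.prod Z).IsCyc (X.prod Z).dim
      (ops.mul (lowCyc ops D D' n (Z.dim - 2 * j) c z)
      (divPow ops (sumDiv ops D D') (n + (Z.dim - 2 * j') - 2 * c')
        (lowCyc ops D D' n (Z.dim - 2 * j') c' z'))) := by
    have := ops.mul_mem (lowCyc_mem (n := n) (m := Z.dim - 2 * j) (c := c) (ops := ops) hD hD'
      hz.1) (divPow_mem (ops := ops) (isCyc_sumDiv (ops := ops) hD hD')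
      (n + (Z.dim - 2 * j') - 2 * c')
      (lowCyc_mem (n := n) (m := Z.dim - 2 * j') (c := c') (ops := ops) hD hD' hz'.1))
    rwa [show j + c + (j' + c' + (n + (Z.dim - 2 * j') - 2 * c')) = (X.prod Z).dim by
      rw [dim_prod]; omega] at this
  have h1 := (pow_low E hD hD' hn hc' (by omega : c' ≤ Z.dim - 2 * j') hy').1
  have h2 := E.tr (lowCyc_mem (n := n) (m := Z.dim - 2 * j) (c := c) (ops := ops) hD hD' hz.1) h1
  have h3 := tr_prim_zero E hD' hj hj' hz hz' hne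
  rw [cl_lowCyc, mul_sub, map_sub, sub_eq_zero, mul_smul_comm, map_zsmul,
    tr_low_high_zero hξm hηm hn hc' (by omega) (by
      rwa [show c + (Z.dim - 2 * j') - c' = Z.dim - j - j' by omega]), smul_zero] at h2
  have e1 : (((X.prod Z).V.degCycle (ops.mul (lowCyc ops D D' n (Z.dim - 2 * j) c z)
      (divPow ops (sumDiv ops D D') (n + (Z.dim - 2 * j') - 2 * c')
        (lowCyc ops D D' n (Z.dim - 2 * j') c' z'))) : ℚ) : W.K) = 0 := by
    rw [← W.tr_cl hmem1, W.cl_mul, cl_divPow, mulLeft_pow_apply, cl_lowCyc, cl_lowCyc, h2]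
  rw [pairing, hM, Rat.cast_eq_zero.1 e1, mul_zero]

/-- There are `r` pairwise orthogonal primitive cycles with `s ⟨z, z⟩ > 0`. -/
def Squares (E : Negl W) (Y : 𝒱.Obj) (D : Y.Cycles) (j : ℕ) (s : ℚ) (r : ℕ) : Prop :=
  ∃ z : Fin r → Y.Cycles, (∀ i, Prim E Y D j (z i)) ∧
    (∀ i, 0 < s * pairing ops Y D j (z i) (z i)) ∧
    ∀ i i', i ≠ i' → pairing ops Y D j (z i) (z i') = 0

lemma Squares.of_fintype {E : Negl W} {D : Y.Cycles} {j : ℕ} {s : ℚ} {ι : Type*} [Fintype ι]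
    (z : ι → Y.Cycles) (h1 : ∀ i, Prim E Y D j (z i))
    (h2 : ∀ i, 0 < s * pairing ops Y D j (z i) (z i))
    (h3 : ∀ i i', i ≠ i' → pairing ops Y D j (z i) (z i') = 0) :
    Squares E Y D j s (Fintype.card ι) :=
  ⟨fun i => z ((Fintype.equivFin ι).symm i), fun _ => h1 _, fun _ => h2 _, fun _ _ h =>
    h3 _ _ fun h' => h ((Fintype.equivFin ι).symm.injective h')⟩

/-- **Superadditivity.** -/
theorem squares_step (E : Negl W) {D : X.Cycles} (hD : X.IsCyc 1 D)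
    (hdeg : 0 < X.V.degCycle (divPow ops D X.dim X.V.fundCycle)) {D' : Z.Cycles}
    (hD' : Z.IsCyc 1 D') {q : ℕ} (s : ℚ) (S : Finset ℕ) (hS : ∀ c ∈ S, c ≤ X.dim ∧ c ≤ q ∧
      c + 2 * (q - c) ≤ Z.dim) (r : ℕ → ℕ) (h : ∀ c ∈ S, Squares E Z D' (q - c) s (r c)) :
    Squares E (X.prod Z) (sumDiv ops D D') q s (∑ c ∈ S, r c) := by
  classical
  choose! z hz1 hz2 hz3 using h
  have hcard : Fintype.card ((c : S) × Fin (r c)) = ∑ c ∈ S, r c := by
    rw [Fintype.card_sigma]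
    simp only [Fintype.card_fin]
    exact Finset.sum_coe_sort S r
  rw [← hcard]
  apply Squares.of_fintype (fun i : (c : S) × Fin (r c) =>
    lowCyc ops D D' X.dim (Z.dim - 2 * (q - i.1)) i.1 (z i.1 i.2))
  · rintro ⟨⟨c, hc⟩, i⟩
    obtain ⟨a1, a2, a3⟩ := hS c hc
    have h1 := (lowCyc_spec E hD hdeg hD' (by omega) a1 a3 (hz1 c hc i) (hz1 c hc i)).1
    rwa [Nat.sub_add_cancel a2] at h1
  · rintro ⟨⟨c, hc⟩, i⟩
    obtain ⟨a1, a2, a3⟩ := hS c hc
    have h1 := (lowCyc_spec E hD hdeg hD' (by omega) a1 a3 (hz1 c hc i) (hz1 c hc i)).2.2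
    rw [Nat.sub_add_cancel a2] at h1
    simp only
    rw [h1, mul_left_comm]
    exact mul_pos (mul_pos (by exact_mod_cast kap_pos _ _ c) hdeg) (hz2 c hc i)
  · rintro ⟨⟨c, hc⟩, i⟩ ⟨⟨c', hc'⟩, i'⟩ hne
    obtain ⟨a1, a2, a3⟩ := hS c hc
    obtain ⟨b1, b2, b3⟩ := hS c' hc'
    by_cases hcc : c = c'
    · subst hcc
      have hii : i ≠ i' := fun h => hne (by rw [h])
      have h1 := (lowCyc_spec E hD hdeg hD' (by omega) a1 a3 (hz1 c hc i) (hz1 c hc i')).2.2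
      rw [Nat.sub_add_cancel a2, hz3 c hc i i' hii, mul_zero] at h1
      exact h1
    · exact lowCyc_orth E hD hD' (by omega) (by omega) (by omega) (by omega) a1 b1 a3 b3
        (by omega) (hz1 c hc i) (hz1 c' hc' i')

end Pool.Agent.Run7.h384.HG
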