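import Pool.Agent.Run7.h384.HG.Step
import Pool.Agent.Run7.h384.HG.Defs

/-!
# Products with several polarized varieties
-/

set_option autoImplicit false

open CategoryTheory AlgebraicGeometry Finset

universe u v

namespace Pool.Agent.Run7.h384.HG

open Pool.Agent.H914 VarClass Obj WeilCohomology
open Pool.Agent.TH720.LB (sumDiv isCyc_sumDiv)
open Pool.Agent.W539.Ker (pairing)
open Pool.Agent.H281R3.HT (Polarized)

variable {k : Type u} [Field k] {𝒱 : VarClass k} {ops : CycleOps 𝒱}
  {W : WeilCohomology.{u, v} ops}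

lemma prodL_dim (l : List (Polarized 𝒱)) (Q : Polarized 𝒱) :
    (prodL ops l Q).X.dim = Q.X.dim + dims l := by
  induction l with
  | nil => simp [prodL, dims]
  | cons P l ih =>
    rw [prodL, List.foldr_cons, ← prodL, Polarized.prod, dim_prod, ih]
    simp only [dims, List.map_cons, List.sum_cons]
    ring

lemma prodL_cyc (l : List (Polarized 𝒱)) (hl : ∀ P ∈ l, P.X.IsCyc 1 P.D) (Q : Polarized 𝒱)
    (hQ : Q.X.IsCyc 1 Q.D) : (prodL ops l Q).X.IsCyc 1 (prodL ops l Q).D := by
  induction l with
  | nil => exact hQ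
  | cons P l ih =>
    exact isCyc_sumDiv (hl P (by simp)) (ih fun P' hP' => hl P' (by simp [hP']))

lemma le_dims {l : List (Polarized 𝒱)} {P : Polarized 𝒱} (hP : P ∈ l) : P.X.dim ≤ dims l :=
  List.single_le_sum (by simp) _ (List.mem_map.2 ⟨P, hP, rfl⟩)

/-- **Products with several polarized varieties.** -/
theorem transfers_list (E : Negl W) (Q : Polarized 𝒱) (hQ : Q.X.IsCyc 1 Q.D)
    (l : List (Polarized 𝒱)) (hl : ∀ P ∈ l, Positive ops P) {j q : ℕ} (hj : 2 * j ≤ Q.X.dim)
    (h1 : j ≤ q) (h2 : 2 * q ≤ Q.X.dim + dims l) (h3 : q ≤ j + dims l)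
    (h4 : ∀ P ∈ l, q + j + P.X.dim ≤ Q.X.dim + dims l) :
    Transfers E Q.X Q.D j (prodL ops l Q).X (prodL ops l Q).D q := by
  induction l generalizing q with
  | nil =>
    obtain rfl : q = j := by simp only [dims, List.map_nil, List.sum_nil] at h3; omega
    exact Transfers.refl E _ _
  | cons P l ih =>
    have hd : dims (P :: l) = P.X.dim + dims l := by
      rw [dims, List.map_cons, List.sum_cons, ← dims]
    rw [hd] at h2 h3 h4
    have hP := hl P (by simp)
    have hP4 := h4 P (by simp)
    set c := min P.X.dim (q - j) with hc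
    obtain ⟨q', hq'⟩ : ∃ q', q = q' + c := ⟨q - c, by omega⟩
    have h5 : Transfers E Q.X Q.D j (prodL ops l Q).X (prodL ops l Q).D q' := by
      apply ih (fun P' hP' => hl P' (by simp [hP']))
      · omega
      · omega
      · omega
      · intro P' hP'
        have h6 := h4 P' (by simp [hP'])
        have h7 := le_dims hP'
        omega
    have hdim := prodL_dim (ops := ops) l Q
    rw [hq']
    apply h5.trans
    apply transfers_step E hP.1 hP.2 (prodL_cyc l (fun P' hP' => (hl P' (by simp [hP'])).1) Q hQ)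
    · omega
    · omega
    · omega

end Pool.Agent.Run7.h384.HG
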