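import Pool.Agent.Run7.h384.HG.Multi
import Pool.Agent.Run7.h384.HG.Defs

/-!
# Homological and numerical equivalence
-/

set_option autoImplicit false

open CategoryTheory AlgebraicGeometry Finset

universe u v

namespace Pool.Agent.Run7.h384.HG

open Pool.Agent.H914 VarClass Obj WeilCohomology
open Pool.Agent.TH720.LB (sumDiv isCyc_sumDiv)
open Pool.Agent.W539.Ker (pairing HasFamily Primitive)
open Pool.Agent.H281R3.HT (Polarized)
open Pool.Agent.Run7.h174.PI (HasSquares HodgeTypeNum NumPrimitive)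

variable {k : Type u} [Field k] {𝒱 : VarClass k} {ops : CycleOps 𝒱}
  {W : WeilCohomology.{u, v} ops} {X Y Z : 𝒱.Obj}

/-- Homological equivalence. -/
def homNegl (W : WeilCohomology.{u, v} ops) : Negl W where
  N _ := ⊥
  mul _ ha := by rw [(Submodule.mem_bot _).1 ha, mul_zero]; exact Submodule.zero_mem _
  ext _ ha := by rw [(Submodule.mem_bot _).1 ha, map_zero, mul_zero]; exact Submodule.zero_mem _
  push ha := by rw [(Submodule.mem_bot _).1 ha, map_zero]; exact Submodule.zero_mem _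
  tr _ ha := by rw [(Submodule.mem_bot _).1 ha, mul_zero, map_zero]

lemma push_small {p : ℕ} {a : W.H (X.prod Z)} (ha : a ∈ W.gr (X.prod Z) (2 * p))
    (hp : p < X.dim) : W.push (snd X Z) a = 0 := by
  apply W.nondeg
  intro b
  refine gr_induction (W.isInternal Z) (p := fun b => W.tr Z (W.push (snd X Z) a * b) = 0) ?_ ?_ b
  · intro i b hb
    by_cases hi : 2 * Z.dim < i
    · rw [W.gr_eq_bot Z i hi, Submodule.mem_bot] at hb
      rw [hb, mul_zero, map_zero]
    · rw [W.tr_push]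
      apply W.tr_eq_zero (W.mul_mem ha (W.map_mem (snd X Z) hb))
      rw [dim_prod]
      omega
  · intro a b ha hb
    rw [mul_add, map_add, ha, hb, add_zero]

/-- Numerical equivalence. -/
def numNegl (W : WeilCohomology.{u, v} ops) : Negl W where
  N Y :=
    { carrier := {a | ∀ p z, Y.IsCyc p z → W.tr Y (W.cl Y z * a) = 0}
      zero_mem' := fun p z _ => by rw [mul_zero, map_zero]
      add_mem' := fun {a b} ha hb p z hz => by rw [mul_add, map_add, ha p z hz, hb p z hz, add_zero]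
      smul_mem' := fun q a ha p z hz => by rw [mul_smul_comm, map_smul, ha p z hz, smul_zero] }
  mul {Y p z a} hz ha := by
    intro p' z' hz'
    rw [← mul_assoc, ← W.cl_mul]
    exact ha _ _ (ops.mul_mem hz' hz)
  ext {X Z p z a} hz ha := by
    intro p' z' hz'
    rw [← mul_assoc, ← W.cl_pull, ← W.cl_mul, ← W.tr_push]
    have h1 := ops.mul_mem hz' (ops.pull_mem (fst X Z) hz)
    by_cases hp : p' + p < X.dim
    · rw [push_small (W.cl_mem h1) hp, zero_mul, map_zero]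
    · rw [← W.cl_push]
      refine ha (p' + p - X.dim) _ (ops.push_mem (snd X Z) h1 ?_)
      rw [dim_prod]
      omega
  push {X Z a} ha := by
    intro p z hz
    rw [W.even_comm (W.cl_mem hz), W.tr_push, ← W.cl_pull,
      ← W.even_comm (W.cl_mem (ops.pull_mem (snd X Z) hz))]
    exact ha _ _ (ops.pull_mem (snd X Z) hz)
  tr hz ha := ha _ _ hz

lemma num_iff {p : ℕ} {z : Y.Cycles} (hz : Y.IsCyc p z) (hp : p ≤ Y.dim) :
    W.cl Y z ∈ (numNegl W).N Y ↔
      ∀ w, Y.IsCyc (Y.dim - p) w → Y.V.degCycle (ops.mul z w) = 0 := by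
  constructor
  · intro h w hw
    have h1 := h _ w hw
    have h2 := ops.mul_mem hz hw
    rw [show p + (Y.dim - p) = Y.dim by omega] at h2
    rw [← W.even_comm (W.cl_mem hz), ← W.cl_mul, W.tr_cl h2] at h1
    exact_mod_cast h1
  · intro h p' w hw
    rw [← W.even_comm (W.cl_mem hz)]
    by_cases hp' : p' = Y.dim - p
    · subst hp'
      have h2 := ops.mul_mem hz hw
      rw [show p + (Y.dim - p) = Y.dim by omega] at h2
      rw [← W.cl_mul, W.tr_cl h2, h w hw, Rat.cast_zero]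
    · exact W.tr_eq_zero (W.mul_mem (W.cl_mem hz) (W.cl_mem hw)) (by omega)

lemma prim_hom_iff {D : Y.Cycles} {j : ℕ} {z : Y.Cycles} :
    Prim (homNegl W) Y D j z ↔ Primitive W Y D j z :=
  ⟨fun h => ⟨h.1, (Submodule.mem_bot _).1 h.2⟩, fun h => ⟨h.1, (Submodule.mem_bot _).2 h.2⟩⟩

lemma prim_num_iff (W : WeilCohomology.{u, v} ops) {D : Y.Cycles} (hD : Y.IsCyc 1 D) {j : ℕ}
    (hj : 2 * j ≤ Y.dim) {z : Y.Cycles} :
    Prim (numNegl W) Y D j z ↔ NumPrimitive ops Y D j z := by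
  constructor
  · rintro ⟨h1, h2⟩
    refine ⟨h1, fun q w hw hq => ?_⟩
    have h3 := h2 _ w hw
    have h4 := ops.mul_mem h1 (divPow_mem (ops := ops) hD (Y.dim - 2 * j + 1) hw)
    rw [show j + (q + (Y.dim - 2 * j + 1)) = Y.dim by omega] at h4
    have h5 : W.cl Y w * W.cl Y (divPow ops D (Y.dim - 2 * j + 1) z) =
        W.cl Y (ops.mul z (divPow ops D (Y.dim - 2 * j + 1) w)) := by
      rw [W.cl_mul, cl_divPow, cl_divPow, mulLeft_pow_apply, mulLeft_pow_apply,
        W.even_comm (W.cl_mem hw), W.even_comm (W.cl_mem h1), mul_assoc, mul_assoc,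
        ← W.even_comm (W.cl_mem hw)]
    rw [h5, W.tr_cl h4] at h3
    exact_mod_cast h3
  · rintro ⟨h1, h2⟩
    refine ⟨h1, fun q w hw => ?_⟩
    have h5 : W.cl Y w * W.cl Y (divPow ops D (Y.dim - 2 * j + 1) z) =
        W.cl Y (ops.mul z (divPow ops D (Y.dim - 2 * j + 1) w)) := by
      rw [W.cl_mul, cl_divPow, cl_divPow, mulLeft_pow_apply, mulLeft_pow_apply,
        W.even_comm (W.cl_mem hw), W.even_comm (W.cl_mem h1), mul_assoc, mul_assoc,
        ← W.even_comm (W.cl_mem hw)]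
    have h4 := ops.mul_mem h1 (divPow_mem (ops := ops) hD (Y.dim - 2 * j + 1) hw)
    rw [h5]
    by_cases hq : q + 1 = j
    · rw [show j + (q + (Y.dim - 2 * j + 1)) = Y.dim by omega] at h4
      rw [W.tr_cl h4, h2 q w hw hq, Rat.cast_zero]
    · exact W.tr_eq_zero (W.cl_mem h4) (by omega)

lemma squares_hom_iff {D : Y.Cycles} {j : ℕ} {s : ℚ} {r : ℕ} :
    Squares (homNegl W) Y D j s r ↔ HasFamily W Y D j s r := by
  rw [Squares, HasFamily]
  simp only [prim_hom_iff]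

lemma squares_num_iff (W : WeilCohomology.{u, v} ops) {D : Y.Cycles} (hD : Y.IsCyc 1 D) {j : ℕ}
    (hj : 2 * j ≤ Y.dim) {s : ℚ} {r : ℕ} :
    Squares (numNegl W) Y D j s r ↔ HasSquares ops Y D j s r := by
  rw [Squares, HasSquares]
  simp only [prim_num_iff W hD hj]

/-- Transfers carry everything. -/
theorem descends_of {R Q : Polarized 𝒱} (hR : R.X.IsCyc 1 R.D) (hQ : Q.X.IsCyc 1 Q.D) {q j : ℕ}
    (hq : 2 * q ≤ R.X.dim) (hj : 2 * j ≤ Q.X.dim)
    (h : ∀ E : Negl W, Transfers E Q.X Q.D j R.X R.D q) : Descends W R q Q j := by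
  refine ⟨fun hH z hz hp h0 => ?_, fun hH z hz h0 => ?_, fun s r => ⟨fun hF => ?_, fun hF => ?_⟩⟩
  · obtain ⟨T, κ, hκ, hT⟩ := h (homNegl W)
    have hz' : Prim (homNegl W) Q.X Q.D j z := ⟨hz, (Submodule.mem_bot _).2 hp⟩
    obtain ⟨a1, a2, a3⟩ := hT z z hz' hz'
    have b1 := hH (T z) a1.1 ((Submodule.mem_bot _).1 a1.2) (fun h1 =>
      h0 ((Submodule.mem_bot _).1 (a2 ((Submodule.mem_bot _).2 h1))))
    rw [← pairing] at b1 ⊢
    rw [a3] at b1
    exact (mul_pos_iff_of_pos_left hκ).1 b1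
  · obtain ⟨T, κ, hκ, hT⟩ := h (numNegl W)
    have hz' : Prim (numNegl W) Q.X Q.D j z := (prim_num_iff W hQ hj).2 hz
    obtain ⟨a1, a2, a3⟩ := hT z z hz' hz'
    have c1 : W.cl R.X (T z) ∉ (numNegl W).N R.X := by
      intro h1
      obtain ⟨w, hw, hw0⟩ := h0
      exact hw0 ((num_iff hz.1 (by omega)).1 (a2 h1) w hw)
    have b1 := hH (T z) ((prim_num_iff W hR hq).1 a1) (by
      by_contra h2
      push Not at h2
      exact c1 ((num_iff a1.1 (by omega)).2 h2))
    rw [a3] at b1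
    exact (mul_pos_iff_of_pos_left hκ).1 b1
  · obtain ⟨T, κ, hκ, hT⟩ := h (homNegl W)
    obtain ⟨z, h1, h2, h3⟩ := hF
    have hz' : ∀ i, Prim (homNegl W) Q.X Q.D j (z i) := fun i => prim_hom_iff.2 (h1 i)
    refine ⟨fun i => T (z i), fun i => prim_hom_iff.1 (hT _ _ (hz' i) (hz' i)).1, fun i => ?_,
      fun i i' hii => ?_⟩
    · rw [(hT _ _ (hz' i) (hz' i)).2.2, mul_left_comm]
      exact mul_pos hκ (h2 i)
    · rw [(hT _ _ (hz' i) (hz' i')).2.2, h3 i i' hii, mul_zero]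
  · obtain ⟨T, κ, hκ, hT⟩ := h (numNegl W)
    obtain ⟨z, h1, h2, h3⟩ := hF
    have hz' : ∀ i, Prim (numNegl W) Q.X Q.D j (z i) := fun i => (prim_num_iff W hQ hj).2 (h1 i)
    refine ⟨fun i => T (z i), fun i => (prim_num_iff W hR hq).1 (hT _ _ (hz' i) (hz' i)).1,
      fun i => ?_, fun i i' hii => ?_⟩
    · rw [(hT _ _ (hz' i) (hz' i)).2.2, mul_left_comm]
      exact mul_pos hκ (h2 i)
    · rw [(hT _ _ (hz' i) (hz' i')).2.2, h3 i i' hii, mul_zero]

end Pool.Agent.Run7.h384.HG
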