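import Pool.Agent.Run7.h384.HG.Geo
import Pool.Agent.W539.Ker.Defs

/-!
# One step: multiplication with a polarized variety
-/

set_option autoImplicit false

open CategoryTheory AlgebraicGeometry Finset

universe u v

namespace Pool.Agent.Run7.h384.HG

open Pool.Agent.H914 VarClass Obj WeilCohomology
open Pool.Agent.TH720.LB (sumDiv isCyc_sumDiv)
open Pool.Agent.W539.Ker (pairing)

variable {k : Type u} [Field k] {𝒱 : VarClass k} {ops : CycleOps 𝒱}
  {W : WeilCohomology.{u, v} ops} {X Y Z : 𝒱.Obj}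

/-- The cycle `z` of codimension `j` is primitive modulo negligible classes. -/
def Prim (E : Negl W) (Y : 𝒱.Obj) (D : Y.Cycles) (j : ℕ) (z : Y.Cycles) : Prop :=
  Y.IsCyc j z ∧ W.cl Y (divPow ops D (Y.dim - 2 * j + 1) z) ∈ E.N Y

/-- A transfer of the primitive cycles of codimension `j` on `(Z, D)` to those of codimension `q`
on `(Y, D')`: it multiplies the pairings by a positive number, and it is injective modulo
negligible classes. -/
def Transfers (E : Negl W) (Z : 𝒱.Obj) (D : Z.Cycles) (j : ℕ) (Y : 𝒱.Obj) (D' : Y.Cycles)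
    (q : ℕ) : Prop :=
  ∃ (T : Z.Cycles → Y.Cycles) (κ : ℚ), 0 < κ ∧ ∀ z z', Prim E Z D j z → Prim E Z D j z' →
    Prim E Y D' q (T z) ∧ (W.cl Y (T z) ∈ E.N Y → W.cl Z z ∈ E.N Z) ∧
      pairing ops Y D' q (T z) (T z') = κ * pairing ops Z D j z z'

lemma Transfers.refl (E : Negl W) (D : Z.Cycles) (j : ℕ) : Transfers E Z D j Z D j :=
  ⟨id, 1, one_pos, fun _ _ hz _ => ⟨hz, id, (one_mul _).symm⟩⟩

lemma Transfers.trans {E : Negl W} {D : Z.Cycles} {j : ℕ} {D' : Y.Cycles} {q : ℕ} {V : 𝒱.Obj}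
    {D'' : V.Cycles} {r : ℕ} (h : Transfers E Z D j Y D' q) (h' : Transfers E Y D' q V D'' r) :
    Transfers E Z D j V D'' r := by
  obtain ⟨T, κ, hκ, hT⟩ := h
  obtain ⟨T', κ', hκ', hT'⟩ := h'
  refine ⟨T' ∘ T, κ' * κ, mul_pos hκ' hκ, fun z z' hz hz' => ?_⟩
  obtain ⟨a1, a2, a3⟩ := hT z z' hz hz'
  have b1 := (hT z' z' hz' hz').1
  obtain ⟨c1, c2, c3⟩ := hT' _ _ a1 b1
  exact ⟨c1, fun h => a2 (c2 h), by rw [Function.comp, Function.comp, c3, a3, mul_assoc]⟩

lemma cl_divPow_fund (D : X.Cycles) (s : ℕ) :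
    W.cl X (divPow ops D s X.V.fundCycle) = W.cl X D ^ s := by
  rw [cl_divPow, W.cl_fund, mulLeft_pow_apply, mul_one]

lemma fund_cyc {D : X.Cycles} (hD : X.IsCyc 1 D) (s : ℕ) :
    X.IsCyc s (divPow ops D s X.V.fundCycle) := by
  have := divPow_mem (ops := ops) hD s X.V.fundCycle_mem
  rwa [zero_add] at this

lemma Negl.pow_mem (E : Negl W) {D : Z.Cycles} (hD : Z.IsCyc 1 D) {a : W.H Z} (ha : a ∈ E.N Z)
    (i : ℕ) : W.cl Z D ^ i * a ∈ E.N Z := by
  have := E.mul (fund_cyc (ops := ops) hD i) ha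
  rwa [cl_divPow_fund] at this

lemma IsCyc_sum {s : Finset ℕ} {f : ℕ → Y.Cycles} {p : ℕ} (h : ∀ a ∈ s, Y.IsCyc p (f a)) :
    Y.IsCyc p (∑ a ∈ s, f a) := by
  induction s using Finset.cons_induction with
  | empty => rw [Finset.sum_empty]; exact SmVar.IsCyc.zero _ _
  | cons a s ha ih =>
    rw [Finset.sum_cons]
    exact SmVar.IsCyc.add (h a (Finset.mem_cons_self _ _))
      (ih fun b hb => h b (Finset.mem_cons_of_mem hb))

/-- The lowest vector as a cycle. -/
noncomputable def lowCyc (ops : CycleOps 𝒱) {X Z : 𝒱.Obj} (D : X.Cycles) (D' : Z.Cycles)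
    (n m c : ℕ) (z : Z.Cycles) : (X.prod Z).Cycles :=
  ∑ a ∈ range (c + 1), ((co n (m - c) c a : ℤ) : ℚ) •
    ops.mul (ops.pull (fst X Z) (divPow ops D a X.V.fundCycle))
      (ops.pull (snd X Z) (divPow ops D' (c - a) z))

section

variable {D : X.Cycles} {D' : Z.Cycles} {n m c j : ℕ} {z : Z.Cycles}

lemma lowCyc_mem (hD : X.IsCyc 1 D) (hD' : Z.IsCyc 1 D') (hz : Z.IsCyc j z) :
    (X.prod Z).IsCyc (j + c) (lowCyc ops D D' n m c z) := by
  apply IsCyc_sum
  intro a ha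
  rw [mem_range] at ha
  apply SmVar.IsCyc.smul
  have := ops.mul_mem (ops.pull_mem (fst X Z) (fund_cyc (ops := ops) hD a))
    (ops.pull_mem (snd X Z) (divPow_mem (ops := ops) hD' (c - a) hz))
  rwa [show a + (j + (c - a)) = j + c by omega] at this

lemma cl_lowCyc : W.cl _ (lowCyc ops D D' n m c z) =
    low (bc W (W.cl X D) (W.cl Z D') (W.cl Z z)) n m c := by
  rw [lowCyc, low, map_sum]
  apply Finset.sum_congr rfl
  intro a _
  rw [W.cl_smul, W.cl_mul, W.cl_pull, W.cl_pull, cl_divPow_fund, cl_divPow, mulLeft_pow_apply, bc,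
    Rat.cast_intCast, Int.cast_smul_eq_zsmul]

lemma cl_sumDiv : W.cl (X.prod Z) (sumDiv ops D D') =
    W.map (fst X Z) (W.cl X D) + W.map (snd X Z) (W.cl Z D') := by
  rw [sumDiv, map_add, W.cl_pull, W.cl_pull]

/-- The powers of the Lefschetz operator on the lowest vector. -/
lemma pow_low (E : Negl W) (hD : X.IsCyc 1 D) (hD' : Z.IsCyc 1 D') (hn : n = X.dim) (hc : c ≤ n)
    (hc' : c ≤ m) {y : W.H Z} (hy : W.cl Z D' ^ (m + 1) * y ∈ E.N Z) :
    W.cl _ (sumDiv ops D D') ^ (n + m - 2 * c) *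
        low (bc W (W.cl X D) (W.cl Z D') y) n m c -
      ((-1 : ℤ) ^ c * ((c.factorial * (n + m - 2 * c).factorial : ℕ) : ℤ)) •
        high (bc W (W.cl X D) (W.cl Z D') y) n m c ∈ E.N (X.prod Z) ∧
    W.cl _ (sumDiv ops D D') ^ (n + m - 2 * c + 1) *
        low (bc W (W.cl X D) (W.cl Z D') y) n m c ∈ E.N (X.prod Z) := by
  set ξ := W.cl X D with hξ
  set η := W.cl Z D' with hη
  set N := E.N (X.prod Z) with hN
  set lam := W.cl _ (sumDiv ops D D') with hlam
  have hmem : N ≤ N.comap (LinearMap.mulLeft W.K lam) := fun a ha =>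
    E.mul (isCyc_sumDiv hD hD') ha
  set Lq : (W.H (X.prod Z) ⧸ N) →+ (W.H (X.prod Z) ⧸ N) :=
    (Submodule.mapQ N N (LinearMap.mulLeft W.K lam) hmem).toAddMonoidHom with hLq
  set mk : W.H (X.prod Z) →+ (W.H (X.prod Z) ⧸ N) := N.mkQ.toAddMonoidHom with hmk
  have hLmk : ∀ a, Lq (mk a) = mk (lam * a) := fun a => by
    rfl
  have hit : ∀ i a, Lq^[i] (mk a) = mk (lam ^ i * a) := by
    intro i
    induction i with
    | zero => intro a; rw [pow_zero, one_mul]; rfl
    | succ i ih =>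
      intro a
      rw [Function.iterate_succ_apply', ih, hLmk, pow_succ', mul_assoc]
  have hmk0 : ∀ a, mk a = 0 ↔ a ∈ N := fun a => Submodule.Quotient.mk_eq_zero N
  set B : ℕ → ℕ → (W.H (X.prod Z) ⧸ N) := fun s t => mk (bc W ξ η y s t) with hB
  have hξm : ξ ∈ W.gr X (2 * 1) := W.cl_mem hD
  have hηm : η ∈ W.gr Z (2 * 1) := W.cl_mem hD'
  have hL : ∀ s t, Lq (B s t) = B (s + 1) t + B s (t + 1) := by
    intro s t
    rw [hB]
    simp only
    rw [hLmk, hlam, cl_sumDiv, bc_mul hξm hηm, map_add]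
  have h1 : ∀ s t, n < s → B s t = 0 := by
    intro s t hs
    have h0 := pow_even (W := W) hξm s
    rw [W.gr_eq_bot X _ (by omega), Submodule.mem_bot] at h0
    rw [hB]
    simp only
    rw [bc, h0, map_zero, zero_mul, map_zero]
  have h2 : ∀ s t, m < t → B s t = 0 := by
    intro s t ht
    rw [hB]
    simp only
    rw [hmk0, bc, ← cl_divPow_fund (ops := ops)]
    apply E.ext (fund_cyc (ops := ops) hD s)
    obtain ⟨i, rfl⟩ : ∃ i, t = i + (m + 1) := ⟨t - (m + 1), by omega⟩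
    rw [pow_add, mul_assoc]
    exact E.pow_mem hD' hy i
  have e1 := L_low Lq B hL h1 h2 hc hc'
  have e2 := L_high Lq B hL h1 h2 hc hc'
  rw [hB, ← low_map mk, ← high_map mk, hit, ← map_zsmul] at e1
  rw [hB, ← high_map mk] at e2
  constructor
  · rw [← hmk0, map_sub, e1, sub_self]
  · rw [← hmk0, pow_succ', mul_assoc, ← hLmk, e1, map_zsmul, map_zsmul, e2, smul_zero]

end

/-- The properties of the lowest vector. -/
theorem lowCyc_spec (E : Negl W) {D : X.Cycles} (hD : X.IsCyc 1 D)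
    (hdeg : 0 < X.V.degCycle (divPow ops D X.dim X.V.fundCycle)) {D' : Z.Cycles}
    (hD' : Z.IsCyc 1 D') {j c : ℕ} (hj : 2 * j ≤ Z.dim) (hc : c ≤ X.dim)
    (hc' : c + 2 * j ≤ Z.dim) {z z' : Z.Cycles} (hz : Prim E Z D' j z)
    (hz' : Prim E Z D' j z') :
    Prim E (X.prod Z) (sumDiv ops D D') (j + c) (lowCyc ops D D' X.dim (Z.dim - 2 * j) c z) ∧
    (W.cl _ (lowCyc ops D D' X.dim (Z.dim - 2 * j) c z) ∈ E.N (X.prod Z) →
      W.cl Z z ∈ E.N Z) ∧
    pairing ops (X.prod Z) (sumDiv ops D D') (j + c)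
        (lowCyc ops D D' X.dim (Z.dim - 2 * j) c z)
        (lowCyc ops D D' X.dim (Z.dim - 2 * j) c z') =
      (kap X.dim (Z.dim - 2 * j) c : ℚ) *
        X.V.degCycle (divPow ops D X.dim X.V.fundCycle) * pairing ops Z D' j z z' := by
  set n := X.dim with hn
  set m := Z.dim - 2 * j with hm
  set δ := X.V.degCycle (divPow ops D n X.V.fundCycle) with hδ
  have hM : (X.prod Z).dim - 2 * (j + c) = n + m - 2 * c := by rw [dim_prod]; omega
  have hcm : c ≤ m := by omega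
  have hξm : W.cl X D ∈ W.gr X (2 * 1) := W.cl_mem hD
  have hηm : W.cl Z D' ∈ W.gr Z (2 * 1) := W.cl_mem hD'
  have htr : W.tr X (W.cl X D ^ n) = (δ : W.K) := by
    rw [← cl_divPow_fund (ops := ops), W.tr_cl (fund_cyc (ops := ops) hD n)]
  have hy : W.cl Z D' ^ (m + 1) * W.cl Z z ∈ E.N Z := by
    have := hz.2; rwa [cl_divPow, mulLeft_pow_apply] at this
  have hy' : W.cl Z D' ^ (m + 1) * W.cl Z z' ∈ E.N Z := by
    have := hz'.2; rwa [cl_divPow, mulLeft_pow_apply] at this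
  refine ⟨⟨lowCyc_mem hD hD' hz.1, ?_⟩, fun h0 => ?_, ?_⟩
  · rw [hM, cl_divPow, mulLeft_pow_apply, cl_lowCyc]
    exact (pow_low E hD hD' hn hc hcm hy).2
  · have h1 := E.push (E.mul (ops.pull_mem (fst X Z) (fund_cyc (ops := ops) hD (n - c))) h0)
    rw [W.cl_pull, cl_divPow_fund, cl_lowCyc, push_low hξm hn hc, htr, smul_smul] at h1
    have h2 : ((co n (m - c) c c : ℤ) : W.K) * (δ : W.K) ≠ 0 := by
      apply mul_ne_zero
      · rw [Int.cast_ne_zero, co]
        exact mul_ne_zero (pow_ne_zero _ (by norm_num)) (by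
          rw [Nat.choose_self]
          exact_mod_cast (Nat.mul_pos one_pos (Nat.mul_pos (Nat.factorial_pos _)
            (Nat.factorial_pos _))).ne')
      · exact_mod_cast hdeg.ne'
    exact (Submodule.smul_mem_iff _ h2).1 h1
  · have hmem1 : (X.prod Z).IsCyc (X.prod Z).dim (ops.mul (lowCyc ops D D' n m c z)
        (divPow ops (sumDiv ops D D') (n + m - 2 * c) (lowCyc ops D D' n m c z'))) := by
      have := ops.mul_mem (lowCyc_mem (n := n) (m := m) (c := c) (ops := ops) hD hD' hz.1)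
        (divPow_mem (ops := ops) (isCyc_sumDiv (ops := ops) hD hD') (n + m - 2 * c)
        (lowCyc_mem (n := n) (m := m) (c := c) (ops := ops) hD hD' hz'.1))
      rwa [show j + c + (j + c + (n + m - 2 * c)) = (X.prod Z).dim by
        rw [dim_prod]; omega] at this
    have hmem2 : Z.IsCyc Z.dim (ops.mul z (divPow ops D' m z')) := by
      have := ops.mul_mem hz.1 (divPow_mem (ops := ops) hD' m hz'.1)
      rwa [show j + (j + m) = Z.dim by omega] at this
    have h1 := (pow_low E hD hD' hn hc hcm hy').1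
    have h2 := E.tr (lowCyc_mem (n := n) (m := m) (c := c) (ops := ops) hD hD' hz.1) h1
    rw [cl_lowCyc, mul_sub, map_sub, sub_eq_zero, mul_smul_comm, map_zsmul,
      tr_low_high hξm hηm hn hc hcm, htr] at h2
    have e1 : (((X.prod Z).V.degCycle (ops.mul (lowCyc ops D D' n m c z)
        (divPow ops (sumDiv ops D D') (n + m - 2 * c) (lowCyc ops D D' n m c z'))) : ℚ) : W.K) =
        (((-1 : ℚ) ^ c * ((kap n m c : ℚ) * δ *
          Z.V.degCycle (ops.mul z (divPow ops D' m z'))) : ℚ) : W.K) := by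
      rw [← W.tr_cl hmem1, W.cl_mul, cl_divPow, mulLeft_pow_apply, cl_lowCyc, cl_lowCyc, h2]
      push_cast
      rw [← W.tr_cl hmem2, W.cl_mul, cl_divPow, mulLeft_pow_apply, kap, zsmul_eq_mul]
      push_cast
      ring
    have e2 : (X.prod Z).V.degCycle (ops.mul (lowCyc ops D D' n m c z)
        (divPow ops (sumDiv ops D D') (n + m - 2 * c) (lowCyc ops D D' n m c z'))) =
        (-1 : ℚ) ^ c * ((kap n m c : ℚ) * δ *
          Z.V.degCycle (ops.mul z (divPow ops D' m z'))) := by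
      exact_mod_cast e1
    rw [pairing, pairing, hM, e2, pow_add]
    have h3 : (-1 : ℚ) ^ c * (-1) ^ c = 1 := by
      rw [← pow_add, ← two_mul, pow_mul]; norm_num
    linear_combination ((-1 : ℚ) ^ j * ((kap n m c : ℚ) * δ *
      Z.V.degCycle (ops.mul z (divPow ops D' m z')))) * h3

/-- **One step.** -/
theorem transfers_step (E : Negl W) {D : X.Cycles} (hD : X.IsCyc 1 D)
    (hdeg : 0 < X.V.degCycle (divPow ops D X.dim X.V.fundCycle)) {D' : Z.Cycles}
    (hD' : Z.IsCyc 1 D') {j c : ℕ} (hj : 2 * j ≤ Z.dim) (hc : c ≤ X.dim)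
    (hc' : c + 2 * j ≤ Z.dim) :
    Transfers E Z D' j (X.prod Z) (sumDiv ops D D') (j + c) :=
  ⟨lowCyc ops D D' X.dim (Z.dim - 2 * j) c, (kap X.dim (Z.dim - 2 * j) c : ℚ) *
    X.V.degCycle (divPow ops D X.dim X.V.fundCycle),
    mul_pos (by exact_mod_cast kap_pos _ _ c) hdeg,
    fun _ _ hz hz' => lowCyc_spec E hD hdeg hD' hj hc hc' hz hz'⟩

end Pool.Agent.Run7.h384.HG
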